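import Mathlib
import Pool.Agent.H11.PE.Dep
import Pool.Graph.R_seed8.TH796.AL.Ai3

set_option autoImplicit false

/-!
# Near-coincidences of powers and algebraic dependence

Let `N(x)` be the number of the pairs `(n, m)` of natural numbers with `|π ^ n - e ^ m| ≤ x`.
At least one of the following is true: `N(x) = (log x) ^ 2 / log π + O(log x)`; `log π` is rational (and then
the answer to the question is negative); `log π` is algebraically independent from each of the
numbers `e`, `π` and `log q`, `q` a positive rational number other than `1`.

So if `π` and `log π` are algebraically dependent then the asymptotic formula of the question is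
equivalent to the irrationality of `log π`, and the same with `e` or `log q` in place of `π`.

More generally the formula `(log x) ^ 2 / (log a log b) + O(log x)` holds for all bases `a, b > 1` such that
`log a / log b` is irrational and algebraically dependent over `ℚ` with `e`, with `π` or with some
`log q` (this includes all irrational algebraic `log a / log b`), for example for
`a = e ^ √(π ^ 2 + 1)` and `b = e`.
-/

namespace Pool.Agent.Results.MP_606be1_nt.AlgebraicDependence

open Real Filter Asymptotics

/-- The pairs of natural numbers `(n, m)` with `|a ^ n - b ^ m| ≤ x`. -/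
def pairs (a b x : ℝ) : Set (ℕ × ℕ) := {p | |a ^ p.1 - b ^ p.2| ≤ x}

/-- `e`, `π` and the logarithms of the positive rational numbers other than `1` -/
def Special (θ : ℝ) : Prop := θ = exp 1 ∨ θ = π ∨ ∃ q : ℚ, 0 < q ∧ q ≠ 1 ∧ θ = log q

/-- the number of the pairs is finite and equal to `(log x) ^ 2 / (log a log b) + O(log x)` -/
def Formula (a b : ℝ) : Prop :=
  ∃ C : ℝ, ∀ x : ℝ, 2 ≤ x → (pairs a b x).Finite ∧
    |(((pairs a b x).ncard : ℕ) : ℝ) - log x ^ 2 / (log a * log b)| ≤ C * log x

/-- **Theorem.** (1) `Formula a b` holds for all `a, b > 1` such that `log a / log b` is irrational and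
algebraically dependent over `ℚ` with `e`, with `π` or with some `log q`.
(2) `Formula π e` holds, or `log π` is rational, or `log π` and `θ` are algebraically independent for each
of these numbers `θ`.
(3) If `log π` and one of these numbers `θ` are algebraically dependent then the asymptotic formula
`N(x) ~ (log x) ^ 2 / log π` (Q1) holds if and only if `log π` is irrational. -/
theorem result :
    (∀ θ : ℝ, Special θ → ∀ a b : ℝ, 1 < a → 1 < b → Irrational (log a / log b) →
      ¬ AlgebraicIndependent ℚ ![θ, log a / log b] → Formula a b) ∧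
    (Formula π (exp 1) ∨ ¬ Irrational (log π) ∨
      ∀ θ : ℝ, Special θ → AlgebraicIndependent ℚ ![θ, log π]) ∧
    (∀ θ : ℝ, Special θ → ¬ AlgebraicIndependent ℚ ![θ, log π] →
      (((fun x : ℝ => (((pairs π (exp 1) x).ncard : ℕ) : ℝ)) ~[atTop]
        (fun x : ℝ => log x ^ 2 / log π)) ↔ Irrational (log π))) := by
  have h1 : ∀ θ : ℝ, Special θ → ∀ a b : ℝ, 1 < a → 1 < b → Irrational (log a / log b) →
      ¬ AlgebraicIndependent ℚ ![θ, log a / log b] → Formula a b := by
    intro θ hθ a b ha hb hirr hdep
    exact Pool.Agent.H11.PE.formula ha hb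
      (Pool.Agent.H11.PE.not_liouville_of_dep (Pool.Agent.TH796.AL.Ai.measT_of hθ) hirr hdep) hirr
  have hpi : (1 : ℝ) < π := by have := Real.pi_gt_three; linarith
  have he : (1 : ℝ) < exp 1 := by have := Real.exp_one_gt_d9; linarith
  have hle : log π / log (exp 1) = log π := by rw [log_exp, div_one]
  have hlp : 0 < log π := log_pos hpi
  refine ⟨h1, ?_, ?_⟩
  · by_contra hcon
    push Not at hcon
    obtain ⟨h2, h3, θ, hθ, hdep⟩ := hcon
    exact h2 (h1 θ hθ π (exp 1) hpi he (by rwa [hle]) (by rwa [hle]))
  · intro θ hθ hdep
    constructor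
    · intro h
      have h2 := (Pool.Agent.H491R3.PE.criterionS (a := π) (b := exp 1) hpi he).1 (by
        have h3 : (fun x : ℝ => log x ^ 2 / (log π * log (exp 1))) =
            (fun x : ℝ => log x ^ 2 / log π) := by
          funext x; rw [log_exp, mul_one]
        rw [h3]
        exact h)
      rw [hle] at h2
      exact h2.1
    · intro hirr
      obtain ⟨C, hC⟩ := h1 θ hθ π (exp 1) hpi he (by rwa [hle]) (by rwa [hle])
      rw [log_exp, mul_one] at hC
      have hlo : (fun x : ℝ => (((pairs π (exp 1) x).ncard : ℕ) : ℝ) - log x ^ 2 / log π)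
          =O[atTop] (fun x : ℝ => log x) := by
        refine IsBigO.of_bound |C| ?_
        filter_upwards [eventually_ge_atTop (2 : ℝ)] with x hx
        rw [norm_eq_abs, norm_eq_abs]
        refine (hC x hx).2.trans ?_
        have h2 : 0 ≤ log x := log_nonneg (by linarith)
        rw [abs_of_nonneg h2]
        exact mul_le_mul_of_nonneg_right (le_abs_self C) h2
      have hlo2 : (fun x : ℝ => log x) =o[atTop] (fun x : ℝ => log x ^ 2 / log π) := by
        have h2 : (fun x : ℝ => log x ^ 1) =o[atTop] (fun x : ℝ => log x ^ 2) :=
          (isLittleO_pow_pow_atTop_of_lt (by norm_num : 1 < 2)).comp_tendsto tendsto_log_atTop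
        simp only [pow_one] at h2
        have h3 := h2.const_mul_right (c := (log π)⁻¹) (inv_ne_zero hlp.ne')
        refine h3.congr_right (fun x => ?_)
        rw [div_eq_mul_inv, mul_comm]
      exact hlo.trans_isLittleO hlo2

end Pool.Agent.Results.MP_606be1_nt.AlgebraicDependence
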